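import Pool.Agent.R974.AT.Defs

/-! Project AT (MP_097655_pr): pieces LAW and TDET. -/

set_option autoImplicit false

open MeasureTheory ProbabilityTheory Filter Topology Set
open scoped ENNReal NNReal

universe u

namespace Pool.Agent.Helper348.AT

open R974.AT
open Pool.Agent.R974.Span (GBM dq mx)

lemma projLimit {Ω : Type u} [MeasurableSpace Ω] {P : Measure Ω} {B : ℝ≥0 → Ω → ℝ}
    (hB : GBM B P) : IsProjectiveLimit (P.map (fun ω => (B · ω)))
      (fun I : Finset ℝ≥0 => P.map (fun ω => I.restrict (B · ω))) :=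
  isProjectiveLimit_map (measurable_pi_lambda _ fun t => hB.meas t).aemeasurable

theorem law : S_LAW.{u} := by
  intro Ω Ω' _ _ P P' B B' hB hB' M hM
  have h1 := projLimit hB
  have h2 := projLimit hB'
  have e : (fun I : Finset ℝ≥0 => P.map (fun ω => I.restrict (B · ω))) =
      (fun I : Finset ℝ≥0 => P'.map (fun ω => I.restrict (B' · ω))) := by
    funext I
    rw [(hB.pre.hasLaw I).map_eq, (hB'.pre.hasLaw I).map_eq]
  have hfin : ∀ I : Finset ℝ≥0, IsFiniteMeasure (P'.map (fun ω => I.restrict (B' · ω))) := by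
    intro I
    rw [(hB'.pre.hasLaw I).map_eq]
    infer_instance
  rw [e] at h1
  have h3 : P.map (fun ω => (B · ω)) = P'.map (fun ω => (B' · ω)) := h1.unique h2
  have m1 : Measurable (fun ω => (B · ω)) := measurable_pi_lambda _ fun t => hB.meas t
  have m2 : Measurable (fun ω => (B' · ω)) := measurable_pi_lambda _ fun t => hB'.meas t
  have h4 := congrArg (fun μ => μ M) h3
  simp only [Measure.map_apply m1 hM, Measure.map_apply m2 hM] at h4
  exact h4

theorem tdet : S_TDET := by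
  intro w _ c r hc hr h1 h2
  have hcr : c < c * r := by
    have : (1 : ℝ) < r := by exact_mod_cast hr
    nlinarith
  have hne : {h : ℝ | 0 < h ∧ h ∉ Sp w 1}.Nonempty := by
    refine ⟨2, by norm_num, ?_⟩
    rintro ⟨s, v, hsv, hv, _, he⟩
    have h3 : (v : ℝ) ≤ 1 := by exact_mod_cast hv
    have h4 : (0 : ℝ) ≤ s := s.2
    linarith
  have hlt : sInf {h : ℝ | 0 < h ∧ h ∉ Sp w 1} < c * r := by
    have : sInf {h : ℝ | 0 < h ∧ h ∉ Sp w 1} = c := h1
    rw [this]
    exact hcr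
  obtain ⟨h, ⟨hh0, hh1⟩, hh2⟩ := exists_lt_of_csInf_lt hne hlt
  have hbdd : ∀ t : ℝ≥0, BddBelow {h : ℝ | 0 < h ∧ h ∉ Sp w t} :=
    fun t => ⟨0, fun x hx => hx.1.le⟩
  have hch : c ≤ h := by
    rw [← h1]
    exact csInf_le (hbdd 1) ⟨hh0, hh1⟩
  have hmem : h ∈ Sp w r := by
    by_contra hcon
    have h3 : TT w r ≤ h := csInf_le (hbdd r) ⟨hh0, hcon⟩
    rw [h2] at h3
    linarith
  obtain ⟨s, v, hsv, hv, hw, he⟩ := hmem
  refine ⟨s, v, ?_, hv, hsv, hw, ?_, ?_⟩
  · by_contra hcon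
    push Not at hcon
    exact hh1 ⟨s, v, hsv, hcon.le, hw, he⟩
  · rw [← he]
    exact hch
  · rw [← he]
    exact hh2.le

end Pool.Agent.Helper348.AT
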